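import Mathlib
import Pool.Agent.Helper5.NE.Stmts

/-! Packet P9: amenability contradiction. -/

namespace Pool.Agent.Helper5.NE

open scoped InnerProductSpace ComplexConjugate ENNReal Topology
open Filter

noncomputable section

namespace P9

/-! ### words -/

/-- the action of a word by right multiplications -/
def Rw : List (Fin 9) → RW → RW
  | [], w => w
  | s :: v, w => RW.Rs s (Rw v w)

theorem Rs_nil (s : Fin 9) : RW.Rs s RW.nil = RW.Ls s RW.nil := by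
  refine Subtype.ext ?_
  rw [RW.Rs_val, RW.Ls_val]
  simp [RW.nil]

theorem Lw_append (u v : List (Fin 9)) (w : RW) : Lw (u ++ v) w = Lw u (Lw v w) := by
  induction u with
  | nil => rfl
  | cons s u ih => simp [Lw, ih]

theorem Rw_append (u v : List (Fin 9)) (w : RW) : Rw (u ++ v) w = Rw u (Rw v w) := by
  induction u with
  | nil => rfl
  | cons s u ih => simp [Rw, ih]

theorem Lw_Rs (v : List (Fin 9)) (t : Fin 9) (w : RW) : Lw v (RW.Rs t w) = RW.Rs t (Lw v w) := by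
  induction v with
  | nil => rfl
  | cons s v ih => simp [Lw, ih, RW.Ls_Rs]

theorem Rw_nil (v : List (Fin 9)) : Rw v RW.nil = Lw v.reverse RW.nil := by
  induction v with
  | nil => rfl
  | cons s v ih =>
    rw [List.reverse_cons, Lw_append]
    show RW.Rs s (Rw v RW.nil) = Lw v.reverse (RW.Ls s RW.nil)
    rw [ih, ← Rs_nil, Lw_Rs]

/-! ### reindexing -/

theorem sum_reverse {M : Type} [AddCommMonoid M] (n : ℕ) (F : List (Fin 9) → M) :
    ∑ v : Fin n → Fin 9, F (List.ofFn v).reverse = ∑ v : Fin n → Fin 9, F (List.ofFn v) := by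
  let e : (Fin n → Fin 9) ≃ (Fin n → Fin 9) := Equiv.arrowCongr Fin.revPerm (Equiv.refl _)
  rw [← Equiv.sum_comp e]
  refine Finset.sum_congr rfl (fun v _ => ?_)
  congr 1
  refine List.ext_getElem (by simp) (fun i h1 h2 => ?_)
  have hi : i < n := by simpa using h2
  simp only [List.getElem_reverse, List.getElem_ofFn, List.length_ofFn, e, Equiv.arrowCongr_apply,
    Equiv.coe_refl, Function.comp_apply, id_eq]
  congr 1
  refine Fin.ext ?_
  simp [Fin.rev]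
  omega

theorem sum_append {M : Type} [AddCommMonoid M] (n m : ℕ) (F : List (Fin 9) → M) :
    ∑ v : Fin n → Fin 9, ∑ w : Fin m → Fin 9, F (List.ofFn v ++ List.ofFn w) =
      ∑ v : Fin (n + m) → Fin 9, F (List.ofFn v) := by
  rw [← Fintype.sum_prod_type']
  rw [← Equiv.sum_comp (Fin.appendEquiv n m)]
  refine Finset.sum_congr rfl (fun v _ => ?_)
  rw [Fin.appendEquiv]
  simp [List.ofFn_fin_append]

/-! ### row sums -/

theorem norm_sq_comb {J : Type} (F : Finset J) (f : J → X) (hf : Function.Injective f)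
    (α : J → ℂ) : ‖(∑ x ∈ F, α x • (del (f x) : L2 X))‖ ^ 2 = ∑ x ∈ F, ‖α x‖ ^ 2 := by
  classical
  set ξ : L2 X := ∑ x ∈ F, α x • (del (f x) : L2 X) with hξ
  have h1 : ∀ x ∈ F, ξ (f x) = α x := by
    intro x hx
    rw [← inner_del_left, hξ, inner_sum]
    rw [Finset.sum_eq_single x]
    · rw [inner_smul_right, inner_del_left, del_self, mul_one]
    · intro y _ hy
      rw [inner_smul_right, inner_del_left, del_ne (fun h => hy (hf h).symm), mul_zero]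
    · intro h; exact absurd hx h
  have h2 : ⟪ξ, ξ⟫_ℂ = ∑ x ∈ F, conj (α x) * α x := by
    conv_lhs => rw [hξ, sum_inner]
    refine Finset.sum_congr rfl (fun x hx => ?_)
    rw [inner_smul_left, ← hξ, inner_del_left, h1 x hx]
  have h3 : ((‖ξ‖ ^ 2 : ℝ) : ℂ) = ((∑ x ∈ F, ‖α x‖ ^ 2 : ℝ) : ℂ) := by
    push_cast
    rw [inner_self_eq_norm_sq_to_K] at h2
    refine Eq.trans ?_ (h2.trans ?_)
    · rfl
    · refine Finset.sum_congr rfl (fun x _ => ?_)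
      rw [Complex.conj_mul']
  exact Complex.ofReal_injective h3

variable {Al : StarSubalgebra ℂ (L2 X →L[ℂ] L2 X)} {C : Type} [NonUnitalCStarAlgebra C]
  {ι : Al →⋆ₙₐ[ℂ] C} {Φ : C →ₗ[ℂ] L2 X →ₗ⋆[ℂ] L2 X →ₗ[ℂ] ℂ}

theorem row_sum (hΦ : IsForm ι Φ) (c : C) (u : X) {J : Type} (F : Finset J) (f : J → X)
    (hf : Function.Injective f) :
    ∑ x ∈ F, ‖Φ c (del u) (del (f x))‖ ^ 2 ≤ ‖c‖ ^ 2 := by
  set ξ : L2 X := ∑ x ∈ F, conj (Φ c (del u) (del (f x))) • (del (f x) : L2 X) with hξ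
  set S : ℝ := ∑ x ∈ F, ‖Φ c (del u) (del (f x))‖ ^ 2 with hS
  have hS0 : 0 ≤ S := Finset.sum_nonneg (fun x _ => by positivity)
  have h1 : ‖ξ‖ ^ 2 = S := by
    rw [hξ, norm_sq_comb F f hf, hS]
    refine Finset.sum_congr rfl (fun x _ => ?_)
    rw [RCLike.norm_conj]
  have h2 : Φ c (del u) ξ = (S : ℂ) := by
    rw [hξ, map_sum, hS]
    push_cast
    refine Finset.sum_congr rfl (fun x _ => ?_)
    rw [map_smul, smul_eq_mul, Complex.conj_mul']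
  have h3 := hΦ.bound c (del u) ξ
  rw [h2, norm_del, mul_one, Complex.norm_real, Real.norm_of_nonneg hS0] at h3
  by_cases h0 : S = 0
  · rw [h0]; positivity
  · have hpos : 0 < S := lt_of_le_of_ne hS0 (Ne.symm h0)
    have h4 : S ^ 2 ≤ ‖c‖ ^ 2 * S := by
      calc S ^ 2 ≤ (‖c‖ * ‖ξ‖) ^ 2 := by gcongr
        _ = ‖c‖ ^ 2 * S := by rw [mul_pow, h1]
    have h5 : S * S ≤ ‖c‖ ^ 2 * S := by rw [← sq]; exact h4
    exact le_of_mul_le_mul_right h5 hpos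

/-! ### words in the algebra -/

variable (hL : ∀ s, wp (Lam s) (fun _ => 1) ∈ Al)

/-- the product of left translations over a word -/
def Lm : List (Fin 9) → Al
  | [] => 1
  | s :: v => ⟨wp (Lam s) (fun _ => 1), hL s⟩ * Lm v

theorem Lm_append (u v : List (Fin 9)) : Lm hL (u ++ v) = Lm hL u * Lm hL v := by
  induction u with
  | nil => simp [Lm]
  | cons s u ih => simp [Lm, ih, mul_assoc]

theorem star_gen (s : Fin 9) : star (⟨wp (Lam s) (fun _ => 1), hL s⟩ : Al) =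
    ⟨wp (Lam s) (fun _ => 1), hL s⟩ := by
  refine Subtype.ext ?_
  show star (wp (Lam s) (fun _ => 1)) = wp (Lam s) (fun _ => 1)
  rw [wp_adjoint _ bd_one]
  simp [Lam_symm]

theorem star_Lm (v : List (Fin 9)) : star (Lm hL v) = Lm hL v.reverse := by
  induction v with
  | nil => simp [Lm]
  | cons s v ih =>
    rw [List.reverse_cons, Lm_append, Lm, star_mul, ih, star_gen]
    simp [Lm]

theorem Lm_del (v : List (Fin 9)) (x : RW) (i : ℕ) :
    ((Lm hL v : Al) : L2 X →L[ℂ] L2 X) (del (x, i)) = del (Lw v x, i) := by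
  induction v with
  | nil => simp [Lm, Lw]
  | cons s v ih =>
    show ((wp (Lam s) (fun _ => 1)) * ((Lm hL v : Al) : L2 X →L[ℂ] L2 X)) (del (x, i)) = _
    rw [mul_apply_eq_comp, ih, wp_del _ bd_one, one_smul]
    rfl

theorem norm_Lm (v : List (Fin 9)) : ‖((Lm hL v : Al) : L2 X →L[ℂ] L2 X)‖ ≤ 1 := by
  induction v with
  | nil =>
    show ‖(1 : L2 X →L[ℂ] L2 X)‖ ≤ 1
    rw [← wp_one]
    exact wp_norm_le _ zero_le_one (fun _ => by simp)
  | cons s v ih =>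
    show ‖(wp (Lam s) (fun _ => 1)) * ((Lm hL v : Al) : L2 X →L[ℂ] L2 X)‖ ≤ 1
    refine (norm_mul_le _ _).trans ?_
    have h1 : ‖wp (Lam s) (fun _ => (1 : ℂ))‖ ≤ 1 :=
      wp_norm_le _ zero_le_one (fun _ => by simp)
    calc _ ≤ (1 : ℝ) * 1 := by gcongr
      _ = 1 := one_mul 1

/-! ### limits -/

variable {D : Type} [CStarAlgebra D] (ψ : D →ₗ[ℂ] C) (Φ) (U : Ultrafilter ℕ)

/-- limit matrix entries -/
def tt (a : D) (y x : RW) : ℂ := lm U (fun u v => Φ (ψ a) (del u) (del v)) y x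

variable {Φ ψ}

theorem hbd (hΦ : IsForm ι Φ) (hψ : CCP ψ) (a : D) (u v : X) :
    ‖Φ (ψ a) (del u) (del v)‖ ≤ ‖a‖ := by
  have := hΦ.bound (ψ a) (del u) (del v)
  rw [norm_del, norm_del, mul_one, mul_one] at this
  exact this.trans (hψ.1 a)

theorem tt_tendsto (hΦ : IsForm ι Φ) (hψ : CCP ψ) (a : D) (y x : RW) :
    Tendsto (fun i => Φ (ψ a) (del (y, i)) (del (x, i))) U (𝓝 (tt Φ ψ U a y x)) :=
  tendsto_lm U (hbd hΦ hψ a) y x

theorem tt_le (hΦ : IsForm ι Φ) (hψ : CCP ψ) (a : D) (y x : RW) :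
    ‖tt Φ ψ U a y x‖ ≤ ‖a‖ :=
  le_of_tendsto' (tt_tendsto U hΦ hψ a y x).norm (fun _ => hbd hΦ hψ a _ _)

theorem tt_sum (hΦ : IsForm ι Φ) (hψ : CCP ψ) {Q : Type} [Fintype Q] (c : Q → ℂ) (e : Q → D)
    (y x : RW) : tt Φ ψ U (∑ q, c q • e q) y x = ∑ q, c q * tt Φ ψ U (e q) y x := by
  have h1 := tt_tendsto U hΦ hψ (∑ q, c q • e q) y x
  have h2 : Tendsto (fun i => ∑ q, c q * Φ (ψ (e q)) (del (y, i)) (del (x, i))) U
      (𝓝 (∑ q, c q * tt Φ ψ U (e q) y x)) :=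
    tendsto_finsetSum _ (fun q _ => (tt_tendsto U hΦ hψ (e q) y x).const_mul (c q))
  refine tendsto_nhds_unique h1 (h2.congr (fun i => ?_))
  simp only [map_sum, map_smul, LinearMap.sum_apply, LinearMap.smul_apply, smul_eq_mul]

theorem tt_row (hΦ : IsForm ι Φ) (hψ : CCP ψ) (a : D) (y : RW) (F : Finset RW) :
    ∑ x ∈ F, ‖tt Φ ψ U a y x‖ ^ 2 ≤ ‖a‖ ^ 2 := by
  have h2 : Tendsto (fun i => ∑ x ∈ F, ‖Φ (ψ a) (del (y, i)) (del (x, i))‖ ^ 2) U
      (𝓝 (∑ x ∈ F, ‖tt Φ ψ U a y x‖ ^ 2)) :=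
    tendsto_finsetSum _ (fun x _ => (tt_tendsto U hΦ hψ a y x).norm.pow 2)
  refine le_of_tendsto' h2 (fun i => ?_)
  refine (row_sum hΦ (ψ a) (y, i) F (fun x => (x, i)) (fun x x' h => (Prod.ext_iff.1 h).1)).trans ?_
  have := hψ.1 a
  gcongr

theorem tt_inv (hinv : ∀ (a : D) (s : Fin 9) (x y : RW),
      tt Φ ψ U a (RW.Rs s y) x = tt Φ ψ U a y (RW.Rs s x)) (a : D) (v : List (Fin 9)) (y x : RW) :
    tt Φ ψ U a (Rw v y) x = tt Φ ψ U a y (Rw v.reverse x) := by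
  induction v generalizing x with
  | nil => rfl
  | cons s v ih =>
    rw [List.reverse_cons, Rw_append]
    show tt Φ ψ U a (RW.Rs s (Rw v y)) x = _
    rw [hinv, ih]
    rfl

/-! ### the positive definite function -/

variable (ι) in
/-- the positive definite function -/
def ph (φ : C →ₗ[ℂ] D) (ψ : D →ₗ[ℂ] C) (Φ : C →ₗ[ℂ] L2 X →ₗ⋆[ℂ] L2 X →ₗ[ℂ] ℂ)
    (w : List (Fin 9)) : ℂ :=
  tt Φ ψ U (φ (ι (Lm hL w))) RW.nil (Rw w RW.nil)

theorem ph_pos (hΦ : IsForm ι Φ) {φ : C →ₗ[ℂ] D} (hφ : CCP φ) (hψ : CCP ψ)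
    (hinv : ∀ (a : D) (s : Fin 9) (x y : RW),
      tt Φ ψ U a (RW.Rs s y) x = tt Φ ψ U a y (RW.Rs s x))
    (I : Type) [Fintype I] (v : I → List (Fin 9)) (α : I → ℂ) :
    0 ≤ (∑ i, ∑ j, conj (α i) * α j * ph ι hL U φ ψ Φ ((v i).reverse ++ v j)).re := by
  classical
  -- the matrix
  have key : ∀ k : ℕ, 0 ≤ (∑ i, ∑ j, conj (α i) * α j *
      Φ (ψ (φ (ι (Lm hL ((v i).reverse ++ v j))))) (del (Rw (v i) RW.nil, k))
        (del (Rw (v j) RW.nil, k))).re := by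
    intro k
    rcases isEmpty_or_nonempty I with hI | ⟨⟨k0⟩⟩
    · simp
    let y : Matrix I I C := fun p q => if p = k0 then ι (Lm hL (v q)) else 0
    have hy : ∀ i j, (star y * y) i j = ι (Lm hL ((v i).reverse ++ v j)) := by
      intro i j
      rw [Matrix.mul_apply, Finset.sum_eq_single k0]
      · rw [Matrix.star_apply]
        show star (if k0 = k0 then ι (Lm hL (v i)) else 0) *
          (if k0 = k0 then ι (Lm hL (v j)) else 0) = _
        rw [if_pos rfl, if_pos rfl, ← map_star, ← map_mul, star_Lm, Lm_append]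
      · intro b _ hb
        show _ * (if b = k0 then ι (Lm hL (v j)) else 0) = 0
        rw [if_neg hb, mul_zero]
      · intro h; exact absurd (Finset.mem_univ _) h
    obtain ⟨z1, hz1⟩ := hφ.gen I y
    obtain ⟨z2, hz2⟩ := hψ.gen I z1
    have hz : ∀ i j, (star z2 * z2) i j = ψ (φ (ι (Lm hL ((v i).reverse ++ v j)))) := by
      intro i j
      rw [← hz2, Matrix.map_apply, ← hz1, Matrix.map_apply, hy]
    have h1 := (hΦ.pos I z2 (fun j => α j • del (Rw (v j) RW.nil, k))).1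
    refine h1.trans_eq ?_
    congr 1
    refine Finset.sum_congr rfl (fun i _ => Finset.sum_congr rfl (fun j _ => ?_))
    have e1 : Φ (ψ (φ (ι (Lm hL ((v i).reverse ++ v j))))) (α i • del (Rw (v i) RW.nil, k)) =
        conj (α i) • Φ (ψ (φ (ι (Lm hL ((v i).reverse ++ v j))))) (del (Rw (v i) RW.nil, k)) :=
      LinearMap.map_smulₛₗ _ _ _
    rw [hz, e1, LinearMap.smul_apply, map_smul, smul_eq_mul, smul_eq_mul]
    ring
  have h2 : Tendsto (fun k : ℕ => (∑ i, ∑ j, conj (α i) * α j *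
      Φ (ψ (φ (ι (Lm hL ((v i).reverse ++ v j))))) (del (Rw (v i) RW.nil, k))
        (del (Rw (v j) RW.nil, k))).re) U
      (𝓝 (∑ i, ∑ j, conj (α i) * α j * ph ι hL U φ ψ Φ ((v i).reverse ++ v j)).re) := by
    refine (Complex.continuous_re.tendsto _).comp ?_
    refine tendsto_finsetSum _ (fun i _ => tendsto_finsetSum _ (fun j _ => ?_))
    refine Tendsto.const_mul _ ?_
    have h3 := tt_tendsto U hΦ hψ (φ (ι (Lm hL ((v i).reverse ++ v j)))) (Rw (v i) RW.nil)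
      (Rw (v j) RW.nil)
    have h4 : tt Φ ψ U (φ (ι (Lm hL ((v i).reverse ++ v j)))) (Rw (v i) RW.nil)
        (Rw (v j) RW.nil) = ph ι hL U φ ψ Φ ((v i).reverse ++ v j) := by
      rw [tt_inv U hinv, ← Rw_append]
      rfl
    rw [← h4]
    exact h3
  exact ge_of_tendsto' h2 key


theorem ph_nil (hΦ : IsForm ι Φ) {φ : C →ₗ[ℂ] D} (hφ : CCP φ) (hψ : CCP ψ) :
    (ph ι hL U φ ψ Φ []).re ≤ 1 := by
  refine (Complex.re_le_norm _).trans ?_
  refine (tt_le U hΦ hψ _ _ _).trans ?_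
  exact (hφ.1 _).trans ((hΦ.nle _).trans (norm_Lm hL _))

theorem ph_one (hΦ : IsForm ι Φ) {φ : C →ₗ[ℂ] D} (hψ : CCP ψ)
    (happ : ∀ s, ‖ψ (φ (ι ⟨wp (Lam s) (fun _ => 1), hL s⟩)) -
      ι ⟨wp (Lam s) (fun _ => 1), hL s⟩‖ ≤ 1 / 4) (s : Fin 9) :
    3 / 4 ≤ (ph ι hL U φ ψ Φ [s]).re := by
  have h1 := (Complex.continuous_re.tendsto _).comp
    (tt_tendsto U hΦ hψ (φ (ι (Lm hL [s]))) RW.nil (Rw [s] RW.nil))
  refine ge_of_tendsto' h1 (fun k => ?_)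
  show 3 / 4 ≤ (Φ (ψ (φ (ι (Lm hL [s])))) (del (RW.nil, k)) (del (Rw [s] RW.nil, k))).re
  have e1 : Lm hL [s] = ⟨wp (Lam s) (fun _ => 1), hL s⟩ := by
    show _ * (1 : Al) = _
    rw [mul_one]
  have e2 : Φ (ι (Lm hL [s])) (del (RW.nil, k)) (del (Rw [s] RW.nil, k)) = 1 := by
    rw [hΦ.emb, Lm_del, inner_del_left]
    have : Lw [s] (Rw [s] RW.nil) = RW.nil := by
      show RW.Ls s (RW.Rs s RW.nil) = RW.nil
      rw [Rs_nil, RW.Ls_Ls]
    rw [this, del_self]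
  have e3 := hΦ.bound (ψ (φ (ι (Lm hL [s]))) - ι (Lm hL [s])) (del (RW.nil, k))
    (del (Rw [s] RW.nil, k))
  rw [norm_del, norm_del, mul_one, mul_one] at e3
  have e4 : ‖ψ (φ (ι (Lm hL [s]))) - ι (Lm hL [s])‖ ≤ 1 / 4 := by
    rw [e1]; exact happ s
  have e5 := e3.trans e4
  rw [map_sub, LinearMap.sub_apply, LinearMap.sub_apply, e2] at e5
  have e6 := (Complex.abs_re_le_norm _).trans e5
  rw [Complex.sub_re, Complex.one_re] at e6
  have := (abs_le.1 e6).1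
  linarith

variable (ι) in
/-- the sums over words of length `n` -/
def aa (φ : C →ₗ[ℂ] D) (ψ : D →ₗ[ℂ] C) (Φ : C →ₗ[ℂ] L2 X →ₗ⋆[ℂ] L2 X →ₗ[ℂ] ℂ) (n : ℕ) : ℝ :=
  ∑ v : Fin n → Fin 9, (ph ι hL U φ ψ Φ (List.ofFn v)).re

theorem aa_quad (hΦ : IsForm ι Φ) {φ : C →ₗ[ℂ] D} (hφ : CCP φ) (hψ : CCP ψ)
    (hinv : ∀ (a : D) (s : Fin 9) (x y : RW),
      tt Φ ψ U a (RW.Rs s y) x = tt Φ ψ U a y (RW.Rs s x)) (n : ℕ) (β : ℝ) :
    0 ≤ (ph ι hL U φ ψ Φ []).re * (β * β) + (2 * aa ι hL U φ ψ Φ n) * β +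
      aa ι hL U φ ψ Φ (n + n) := by
  have h1 := ph_pos hL U hΦ hφ hψ hinv (Option (Fin n → Fin 9))
    (fun o => o.elim [] (fun f => List.ofFn f)) (fun o => o.elim (β : ℂ) (fun _ => 1))
  refine h1.trans_eq ?_
  simp only [Fintype.sum_option, Option.elim_none, Option.elim_some, List.reverse_nil,
    List.nil_append, List.append_nil, Complex.conj_ofReal, map_one, one_mul, mul_one]
  rw [Finset.sum_add_distrib]
  have e1 : ∑ x : Fin n → Fin 9, (β : ℂ) * ph ι hL U φ ψ Φ (List.ofFn x).reverse =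
      ∑ x : Fin n → Fin 9, (β : ℂ) * ph ι hL U φ ψ Φ (List.ofFn x) :=
    sum_reverse n (fun l => (β : ℂ) * ph ι hL U φ ψ Φ l)
  have e2 : ∑ x : Fin n → Fin 9, ∑ y : Fin n → Fin 9,
      ph ι hL U φ ψ Φ ((List.ofFn x).reverse ++ List.ofFn y) =
      ∑ v : Fin (n + n) → Fin 9, ph ι hL U φ ψ Φ (List.ofFn v) := by
    rw [← sum_append]
    exact sum_reverse n (fun l => ∑ y : Fin n → Fin 9, ph ι hL U φ ψ Φ (l ++ List.ofFn y))
  rw [e1, e2]
  unfold aa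
  simp only [Complex.add_re, Complex.re_sum, Complex.mul_re, Complex.ofReal_re, Complex.ofReal_im,
    Complex.mul_im, zero_mul, mul_zero, sub_zero, add_zero, ← Finset.mul_sum]
  ring

theorem aa_sq (hΦ : IsForm ι Φ) {φ : C →ₗ[ℂ] D} (hφ : CCP φ) (hψ : CCP ψ)
    (hinv : ∀ (a : D) (s : Fin 9) (x y : RW),
      tt Φ ψ U a (RW.Rs s y) x = tt Φ ψ U a y (RW.Rs s x)) (n : ℕ) :
    (aa ι hL U φ ψ Φ n) ^ 2 ≤ aa ι hL U φ ψ Φ (n + n) := by
  have h1 := discrim_le_zero (aa_quad hL U hΦ hφ hψ hinv n)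
  have h2 := aa_quad hL U hΦ hφ hψ hinv n 0
  have h3 := ph_nil hL U hΦ hφ hψ
  unfold discrim at h1
  nlinarith

theorem aa_one (hΦ : IsForm ι Φ) {φ : C →ₗ[ℂ] D} (hψ : CCP ψ)
    (happ : ∀ s, ‖ψ (φ (ι ⟨wp (Lam s) (fun _ => 1), hL s⟩)) -
      ι ⟨wp (Lam s) (fun _ => 1), hL s⟩‖ ≤ 1 / 4) :
    27 / 4 ≤ aa ι hL U φ ψ Φ 1 := by
  unfold aa
  have h1 : ∑ _v : Fin 1 → Fin 9, (3 / 4 : ℝ) ≤
      ∑ v : Fin 1 → Fin 9, (ph ι hL U φ ψ Φ (List.ofFn v)).re := by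
    refine Finset.sum_le_sum (fun v _ => ?_)
    have : List.ofFn v = [v 0] := by simp
    rw [this]
    exact ph_one hL U hΦ hψ happ _
  refine le_trans ?_ h1
  rw [Finset.sum_const, Finset.card_univ]
  simp
  norm_num

theorem aa_lower (hΦ : IsForm ι Φ) {φ : C →ₗ[ℂ] D} (hφ : CCP φ) (hψ : CCP ψ)
    (hinv : ∀ (a : D) (s : Fin 9) (x y : RW),
      tt Φ ψ U a (RW.Rs s y) x = tt Φ ψ U a y (RW.Rs s x))
    (happ : ∀ s, ‖ψ (φ (ι ⟨wp (Lam s) (fun _ => 1), hL s⟩)) -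
      ι ⟨wp (Lam s) (fun _ => 1), hL s⟩‖ ≤ 1 / 4) (k : ℕ) :
    (27 / 4 : ℝ) ^ (2 ^ k) ≤ aa ι hL U φ ψ Φ (2 ^ k) := by
  induction k with
  | zero => simpa using aa_one hL U hΦ hψ happ
  | succ k ih =>
    rw [pow_succ 2 k, mul_two]
    refine le_trans ?_ (aa_sq hL U hΦ hφ hψ hinv (2 ^ k))
    rw [← two_mul, mul_comm 2, pow_mul]
    gcongr

theorem aa_upper (hK : KestenStmt) (hΦ : IsForm ι Φ) [FiniteDimensional ℂ D]
    {φ : C →ₗ[ℂ] D} (hφ : CCP φ) (hψ : CCP ψ) :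
    ∃ C1 : ℝ, ∀ n, aa ι hL U φ ψ Φ n ≤ C1 * 6 ^ n := by
  let bs := Module.finBasis ℂ D
  let co : Fin (Module.finrank ℂ D) → (D →L[ℂ] ℂ) := fun q =>
    LinearMap.toContinuousLinearMap (bs.coord q)
  refine ⟨∑ q, ‖co q‖ * ‖bs q‖, fun n => ?_⟩
  have hn : ∀ q, 0 < ‖bs q‖ := fun q => norm_pos_iff.2 (bs.ne_zero q)
  -- Kesten bound for each basis element
  have hq : ∀ q, ∑ v : Fin n → Fin 9, ‖tt Φ ψ U (bs q) RW.nil (Rw (List.ofFn v) RW.nil)‖ ≤
      ‖bs q‖ * 6 ^ n := by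
    intro q
    have h1 := hK (fun x => ‖tt Φ ψ U (bs q) RW.nil x‖ / ‖bs q‖) (fun x => by positivity)
      (fun F => by
        have h2 := tt_row U hΦ hψ (bs q) RW.nil F
        have h3 : ∑ x ∈ F, (‖tt Φ ψ U (bs q) RW.nil x‖ / ‖bs q‖) ^ 2 =
            (∑ x ∈ F, ‖tt Φ ψ U (bs q) RW.nil x‖ ^ 2) / ‖bs q‖ ^ 2 := by
          rw [Finset.sum_div]
          exact Finset.sum_congr rfl (fun x _ => div_pow _ _ _)
        rw [h3, div_le_one (by have := hn q; positivity)]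
        exact h2) n
    rw [← Finset.sum_div, div_le_iff₀ (hn q)] at h1
    have h4 : ∑ v : Fin n → Fin 9, ‖tt Φ ψ U (bs q) RW.nil (Rw (List.ofFn v) RW.nil)‖ =
        ∑ v : Fin n → Fin 9, ‖tt Φ ψ U (bs q) RW.nil (Lw (List.ofFn v) RW.nil)‖ := by
      simp only [Rw_nil]
      exact sum_reverse n (fun l => ‖tt Φ ψ U (bs q) RW.nil (Lw l RW.nil)‖)
    rw [h4, mul_comm]
    exact h1
  -- pointwise bound
  have hp : ∀ v : List (Fin 9), (ph ι hL U φ ψ Φ v).re ≤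
      ∑ q, ‖co q‖ * ‖tt Φ ψ U (bs q) RW.nil (Rw v RW.nil)‖ := by
    intro v
    have h1 : ph ι hL U φ ψ Φ v = ∑ q, co q (φ (ι (Lm hL v))) *
        tt Φ ψ U (bs q) RW.nil (Rw v RW.nil) := by
      rw [← tt_sum U hΦ hψ]
      unfold ph
      congr 1
      exact (bs.sum_repr (φ (ι (Lm hL v)))).symm
    refine (Complex.re_le_norm _).trans ?_
    rw [h1]
    refine (norm_sum_le _ _).trans (Finset.sum_le_sum (fun q _ => ?_))
    rw [norm_mul]
    have h2 : ‖co q (φ (ι (Lm hL v)))‖ ≤ ‖co q‖ := by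
      refine ((co q).le_opNorm _).trans ?_
      have h3 : ‖φ (ι (Lm hL v))‖ ≤ 1 := (hφ.1 _).trans ((hΦ.nle _).trans (norm_Lm hL _))
      calc ‖co q‖ * ‖φ (ι (Lm hL v))‖ ≤ ‖co q‖ * 1 := by gcongr
        _ = ‖co q‖ := mul_one _
    gcongr
  calc aa ι hL U φ ψ Φ n ≤ ∑ v : Fin n → Fin 9, ∑ q, ‖co q‖ *
        ‖tt Φ ψ U (bs q) RW.nil (Rw (List.ofFn v) RW.nil)‖ :=
        Finset.sum_le_sum (fun v _ => hp _)
    _ = ∑ q, ‖co q‖ * ∑ v : Fin n → Fin 9,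
        ‖tt Φ ψ U (bs q) RW.nil (Rw (List.ofFn v) RW.nil)‖ := by
        rw [Finset.sum_comm]
        exact Finset.sum_congr rfl (fun q _ => Finset.mul_sum _ _ _ |>.symm)
    _ ≤ ∑ q, ‖co q‖ * (‖bs q‖ * 6 ^ n) := by
        refine Finset.sum_le_sum (fun q _ => ?_)
        have := hq q
        gcongr
    _ = (∑ q, ‖co q‖ * ‖bs q‖) * 6 ^ n := by
        rw [Finset.sum_mul]
        exact Finset.sum_congr rfl (fun q _ => by ring)

end P9

open P9 in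
/-- packet P9 -/
theorem partA (hK : KestenStmt) (_hG : FormGoodStmt) : PartAStmt := by
  intro Al hL C _ ι Φ hΦ D _ _ φ ψ hφ hψ happ U hinv
  obtain ⟨C1, hC1⟩ := aa_upper hL U hK hΦ hφ hψ
  have hlow := aa_lower hL U hΦ hφ hψ hinv happ
  obtain ⟨m, hm⟩ := pow_unbounded_of_one_lt C1 (by norm_num : (1 : ℝ) < 9 / 8)
  have h1 := (hlow m).trans (hC1 (2 ^ m))
  have h2 : (9 / 8 : ℝ) ^ (2 ^ m) ≤ C1 := by
    have h3 : (27 / 4 : ℝ) ^ (2 ^ m) = (9 / 8) ^ (2 ^ m) * 6 ^ (2 ^ m) := by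
      rw [← mul_pow]; norm_num
    rw [h3] at h1
    exact le_of_mul_le_mul_right h1 (by positivity)
  have h4 : (9 / 8 : ℝ) ^ m ≤ (9 / 8) ^ (2 ^ m) :=
    pow_le_pow_right₀ (by norm_num) (Nat.lt_two_pow_self).le
  linarith

end

end Pool.Agent.Helper5.NE
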